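import Pool.Agent.K6.H99.FS.Const
import Pool.Agent.K6.H99.FF.BB
import Pool.Agent.N166.MU.Main

/-!
# Bloch-Beilinson filtrations over function fields
-/

set_option autoImplicit false
set_option linter.unusedSectionVars false

open CategoryTheory AlgebraicGeometry

namespace Pool.Agent.K6.H99.FS

open Pool.Agent.H914 Pool.Agent.H914.VarClass Pool.Agent.H914.VarClass.Obj
  Pool.Agent.W492.BB Pool.Agent.K6.H99.BB Pool.Agent.TH133
open Pool.Agent.N166.MU (isChowProj_of isWeilProj_of)
open Pool.Agent.W484.CK (RatEqHom)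

section bridge

variable {T T' : Theory}

theorem isNormalized_of (h : T.IsNormal) : Pool.Agent.N166.MU.IsNormalized T.C where
  push_one := by
    intro X Y f g h1 h2
    have := h.push_one f g ⟨h1, h2⟩
    simpa using this
  degree := h.degree
  polarized := h.polarized

theorem isChowProj (h : T.IsGood) : IsChowProj T.C :=
  isChowProj_of (isNormalized_of h.normal) h.standard

theorem isWeilProj (h : T.IsGood) : IsWeilProj T.H :=
  isWeilProj_of h.standard h.topOriented

/-- The data in the unbundled form. -/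
def data {S : T.Var} (D : ConstantData T T' S) : FF.ConstantData T.C T'.C S where
  model := D.model
  res := D.res
  res₂ := D.res₂

theorem isConstant_of {S : T.Var} {D : ConstantData T T' S} {s : T.CH S} (h1 : D.IsRestriction)
    (h2 : D.Specializes s) : FF.IsConstant T.H T'.H (data D) s where
  dim := h1.dim
  mem := h1.mem
  surj := h1.surj
  surj₂ := h1.surj₂
  pull := h1.pull
  push := h1.push
  base := h1.base
  hom := h2.hom
  kills := h2.kills

theorem isStrong_of {F : Filtration T.C} (h : IsStrongBB T.H F) : T.IsStrong F :=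
  fun _ _ _ _ _ _ _ hΓ hx => ⟨h.act hΓ hx, fun hk => h.shift hΓ hk hx⟩

theorem isTransfer_of {α : TransferData T T'} (h : IsTransfer α) :
    BB.IsTransfer T'.H T.H α.obj α.map where
  mem := h.mem
  inj := h.inj
  hom := h.hom
  corr := by
    intro W V e Γ hΓ
    obtain ⟨Γ', h1, h2⟩ := h.corr W V e Γ hΓ
    exact ⟨Γ', h1, h2.act, h2.kills⟩

end bridge

/-- **The general theorem.** -/
theorem hasBB_of_ratHom {T : Theory} (hG : T.IsGood) (hc : T.IsGradedCommutative)
    (hK : KunnethConjecture T.H) {S : T.Var} {s : T.CH S} (hs1 : T.Codim (T.dim S) s)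
    (hs2 : T.HasDeg s 1) (hS : T.HasLefschetz S) {T' : Theory} {D : ConstantData T T' S}
    (hG' : T'.IsGood) (hD1 : D.IsRestriction) (hD2 : D.Specializes s)
    (hL : ∀ Z : T'.Var, T.HasLefschetz (D.model Z))
    (hR : ∀ Z : T'.Var, RatEqHom T.H (D.M Z)) :
    T'.HasBB (T.dim S) (IsLeray D) ∧ DominatedBB T' (T.dim S) := by
  have _ : IsChowProj T.C := isChowProj hG
  have _ : IsChowProj T'.C := isChowProj hG'
  have _ : IsWeilProj T.H := isWeilProj hG
  have _ : IsWeilProj T'.H := isWeilProj hG'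
  have hR' : ∀ Z, FF.RatHom T.H (((data D).model Z).prod S) := hR
  have hL' : ∀ Z, FF.HasLefschetz T.H ((data D).model Z) := hL
  have hS' : FF.HasLefschetz T.H S := hS
  have hc' : FF.IsGradedCommutative T.H := hc
  have hD := isConstant_of hD1 hD2
  have hs : FF.HasDegreeOne s := by
    refine ⟨hs1, fun X => ?_⟩
    have := (hs2 X).2
    simpa using this
  have hF := FF.isStrongBB_fil hc' hR' hK hL' hs hD
  have htop : ∀ (Z : T'.Var) (i n : ℕ) (x : T'.CH Z), S.dim < n →
      (FF.fil T.H hD).Mem i n x → x = 0 := fun Z i n x hn hx => FF.fil_top hR' hK hS' hD hn hx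
  refine ⟨⟨FF.fil T.H hD, hF.isBB, isStrong_of hF, fun Z i n x => ?_, htop⟩, ?_⟩
  · rw [FF.mem_fil]
    constructor
    · rintro ⟨y, hy, h⟩
      exact ⟨y, hy.1, hy.2, h⟩
    · rintro ⟨y, h1, h2, h⟩
      exact ⟨y, ⟨h1, h2⟩, h⟩
  · intro T'' α hG'' hα
    have _ : IsChowProj T''.C := isChowProj hG''
    have hF' := isStrongBB_transfer (isTransfer_of hα) hF
    exact ⟨transfer α.map (FF.fil T.H hD), hF'.isBB, isStrong_of hF', trivial, fun W i n x hn hx =>
      hα.inj W x (htop _ i n _ hn hx.2)⟩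

/-- The theorem for motives which are direct summands. -/
theorem bbFor_of_ratEqHom {T : Theory} {G : T.Var → T.Var → Prop}
    (hR : ∀ A Y : T.Var, G A Y → RatEqHom T.H (T.prod A Y)) : BBFor T G := by
  intro hG hc hK S s hs1 hs2 hS T' D hG' hD1 hD2 hZ
  have _ : IsChowProj T.C := isChowProj hG
  have _ : IsWeilProj T.H := isWeilProj hG
  refine hasBB_of_ratHom hG hc hK hs1 hs2 hS hG' hD1 hD2 (fun Z => (hZ Z).1) fun Z => ?_
  obtain ⟨J, _, A, Y, e, a, b, h1, h2⟩ := (hZ Z).2
  intro i z hz h0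
  have h3 : ∀ j, T.C.act (a j) z = 0 := by
    intro j
    obtain ⟨hj, ha⟩ := h1 j
    have h5 : T.C.act (a j) z ∈ T.C.gr _ (i + e j) := act_mem' T.C ha hz
    rcases lt_or_ge ((i : ℤ) + e j) 0 with h6 | h6
    · rw [T.C.gr_neg _ _ h6] at h5
      exact (Submodule.mem_bot _).1 h5
    · obtain ⟨m, hm⟩ := Int.eq_ofNat_of_zero_le h6
      rw [hm] at h5
      refine hR _ _ hj m _ h5 ?_
      rw [cl_act, h0, TheoryData.act_map_zero]
  rw [h2 z]
  apply Finset.sum_eq_zero
  intro j _
  change T.C.act (b j) (T.C.act (a j) z) = 0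
  rw [h3, TheoryData.act_map_zero]

end Pool.Agent.K6.H99.FS
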