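import Pool.Agent.K6.H99.FS.Curve
import Pool.Agent.K6.H99.FS.Gen
import Pool.Agent.K6.H99.AC.Main
import Pool.Agent.W484.CK.Main

/-!
# Bloch-Beilinson filtrations over the function fields of curves
-/

set_option autoImplicit false
set_option linter.unusedSectionVars false

open CategoryTheory AlgebraicGeometry

namespace Pool.Agent.K6.H99.FS

open Polynomial Pool.Agent.H914 Pool.Agent.H914.VarClass Pool.Agent.H914.VarClass.Obj
  Pool.Agent.W492.BB
open Pool.Agent.W484.CK (isStandard_bridge isFrobenius_bridge isAbelian_bridge nilpotence_bridge)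
open Pool.Agent.W521.Count Pool.Agent.W521.Bad Pool.Agent.W521.Density
  Pool.Agent.W484.TB Pool.Agent.W521.Frob Pool.Agent.W521.Total

/-- Rational and homological equivalence coincide on `A × Y`. -/
theorem ratEqHom_of_isCurvePair {I : Type} [Finite I] (g : I → ℕ) (hg : ∀ i, 0 < g i) {q : ℕ}
    (hqpp : IsPrimePow q) (E : IntermediateField ℚ ℂ) [FiniteDimensional ℚ E]
    (x : (Σ i, Fin (g i)) → ℤ) (hx : GoodU (splitPrimes E) g q x)
    (hw : ∀ i, weil q (polys g x i) ∈ largeRankWeilPolys q (g i))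
    {T : Theory} [IsAlgClosed T.K] [CharZero T.K] (hG : T.IsGood) {n : ℕ} {A Y : T.Var}
    (h : IsCurvePair T q n (fun i => weil q (polys g x i)) A Y) :
    Pool.Agent.W484.CK.RatEqHom T.H (T.prod A Y) := by
  obtain ⟨hn, πA, πY, hA, hY, htate, hF, hnil⟩ := h
  obtain ⟨χ, hχ, hχn, hY1⟩ := hY.weil
  exact AC.ratEqHom_curve g hg hqpp E x hx hw n hn (isStandard_bridge hG.standard)
    (isAbelian_bridge hA) hY.dim (isFrobenius_bridge hY.frobenius) hχ
    (fun ρ hρ => by have := hχn ρ hρ; push_cast at this; exact this) (fun c hc => hY1 c hc)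
    (fun c hc => hY.top c hc) (fun c hc h => htate c hc h) (isFrobenius_bridge hF)
    (nilpotence_bridge hnil)

/-- **The count.** -/
theorem globalField_count {I : Type} [Fintype I] (g : I → ℕ) (hg : ∀ i, 0 < g i) :
    ∃ C : ℝ, ∀ q : ℕ, IsPrimePow q → ∀ S : I → Set ℤ[X],
      (∀ i, ordinaryWeilPolys q (g i) ⊆ S i ∧ S i ⊆ largeRankWeilPolys q (g i)) →
      (∀ i, (S i).Finite ∧ (S i).Nonempty) ∧
      ({f : I → ℤ[X] | (∀ i, f i ∈ S i) ∧ ¬ GlobalFieldBB q f}.ncard : ℝ) ≤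
        C * (Real.log q * (q : ℝ) ^ (-(1 / 6) : ℝ)) * ∏ i, ((S i).ncard : ℝ) := by
  classical
  obtain ⟨C, hC, h⟩ := main_count_set g (splitPrimes (⊥ : IntermediateField ℚ ℂ))
    (dense_splitPrimes _) hg
  refine ⟨C, fun q hq S hS => ?_⟩
  have hsub : ∀ i, S i ⊆ weilPolys q (g i) := fun i => (hS i).2.trans fun f hf => hf.1
  have hfinS : ∀ i, (S i).Finite := fun i => (finite_weilPolys hq.pos.ne').subset (hsub i)
  refine ⟨fun i => ⟨hfinS i, ⟨_, (hS i).1 (ordinary_nonempty hq.pos (g i))⟩⟩, ?_⟩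
  have h1 := h q hq (fun f => (∀ i, f i ∈ largeRankWeilPolys q (g i)) → GlobalFieldBB q f)
    (fun x hx hw T _ _ n hG => bbFor_of_ratEqHom
      (fun A Y hAY => ratEqHom_of_isCurvePair g hg hq _ x hx hw hG hAY) hG)
  have hfin : {f : I → ℤ[X] | (∀ i, f i ∈ weilPolys q (g i)) ∧
      ¬ ((∀ i, f i ∈ largeRankWeilPolys q (g i)) → GlobalFieldBB q f)}.Finite :=
    (finite_tuples g hq.pos.ne').subset fun f hf => hf.1
  have h2 : {f : I → ℤ[X] | (∀ i, f i ∈ S i) ∧ ¬ GlobalFieldBB q f}.ncard ≤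
      {f : I → ℤ[X] | (∀ i, f i ∈ weilPolys q (g i)) ∧
        ¬ ((∀ i, f i ∈ largeRankWeilPolys q (g i)) → GlobalFieldBB q f)}.ncard :=
    Set.ncard_le_ncard (fun f hf => ⟨fun i => hsub i (hf.1 i), fun h3 => hf.2 (h3 fun i =>
      (hS i).2 (hf.1 i))⟩) hfin
  have hr : 0 ≤ Real.log q * (q : ℝ) ^ (-(1 / 6) : ℝ) := rate_nonneg q
  calc ({f : I → ℤ[X] | (∀ i, f i ∈ S i) ∧ ¬ GlobalFieldBB q f}.ncard : ℝ) ≤ _ := by
        exact_mod_cast h2
    _ ≤ C * (Real.log q * (q : ℝ) ^ (-(1 / 6) : ℝ)) *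
          ∏ i, ((ordinaryWeilPolys q (g i)).ncard : ℝ) := h1
    _ ≤ C * (Real.log q * (q : ℝ) ^ (-(1 / 6) : ℝ)) * ∏ i, ((S i).ncard : ℝ) := by
        refine mul_le_mul_of_nonneg_left ?_ (mul_nonneg hC.le hr)
        refine Finset.prod_le_prod (fun i _ => Nat.cast_nonneg _) fun i _ => ?_
        exact_mod_cast Set.ncard_le_ncard (hS i).1 (hfinS i)

end Pool.Agent.K6.H99.FS
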