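import Mathlib

/-!
# Weil polynomials
-/

set_option autoImplicit false

namespace Pool.Agent.K6.H99.FS

open Polynomial

/-- The polynomials `f` of degree `2 g` with integral coefficients, leading coefficient one and
constant term `q ^ g`, all of whose complex roots have absolute value `√q`. -/
def weilPolys (q g : ℕ) : Set ℤ[X] :=
  {f | f.Monic ∧ f.natDegree = 2 * g ∧ f.coeff 0 = (q : ℤ) ^ g ∧
    ∀ z : ℂ, aeval z f = 0 → ‖z‖ ^ 2 = q}

/-- The Weil polynomials whose middle coefficient is prime to `q`. -/
def ordinaryWeilPolys (q g : ℕ) : Set ℤ[X] := {f ∈ weilPolys q g | IsCoprime (f.coeff g) (q : ℤ)}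

/-- The Weil polynomials whose `p`-rank is larger than a third of the dimension: some coefficient
of index `2 g - r` with `g < 3 r` is prime to `q`. -/
def largeRankWeilPolys (q g : ℕ) : Set ℤ[X] :=
  {f ∈ weilPolys q g | ∃ r, r ≤ g ∧ g < 3 * r ∧ IsCoprime (f.coeff (2 * g - r)) (q : ℤ)}

end Pool.Agent.K6.H99.FS
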