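import Pool.Agent.K6.H99.FS.Const
import Pool.Agent.K6.H99.FS.Weil

/-!
# Bloch-Beilinson filtrations over the function fields of curves: statements
-/

set_option autoImplicit false

open CategoryTheory AlgebraicGeometry

noncomputable section

namespace Pool.Agent.K6.H99.FS

open Polynomial Pool.Agent.H914 Pool.Agent.H914.VarClass Pool.Agent.H914.VarClass.Obj
  Pool.Agent.W492.BB
open Pool.Agent.W484.CK (IsAbelian IsFrobenius Nilpotence InSpan IsDivisorClass)

variable (T : Theory)

/-- `c` is an eigenvector of `π` in `H^1(Y)` whose eigenvalue is a root of `χ`. -/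
def IsEigen {Y : T.Var} (π : Y ⟶ Y) (χ : ℤ[X]) (c : T.Coh Y) : Prop :=
  T.Degree 1 c ∧ ∃ ρ : T.K, aeval ρ χ = 0 ∧ T.H.up π c = ρ • c

/-- `Y` is a curve over the field with `Q` elements, with Frobenius endomorphism `π`: it has dimension
one, `π` acts on its Chow groups like the Frobenius endomorphism, `H^1(Y)` is spanned by eigenvectors
of `π` with eigenvalues roots of a monic integral polynomial all of whose complex roots have
absolute value `√Q` (Weil), and `H^2(Y)` by the classes of the divisors. -/
structure IsCurve (Q : ℕ) {Y : T.Var} (π : Y ⟶ Y) : Prop where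
  dim : T.dim Y = 1
  frobenius : IsFrobenius T.C π Q
  weil : ∃ χ : ℤ[X], χ.Monic ∧ (∀ ρ : ℂ, aeval ρ χ = 0 → ‖ρ‖ ^ 2 = Q) ∧
    ∀ c : T.Coh Y, T.Degree 1 c → InSpan T.H (IsEigen T π χ) c
  top : ∀ c : T.Coh Y, T.Degree 2 c → InSpan T.H (IsDivisorClass T.H) c

/-- The theorem of Tate for the divisors on `X`: the classes in `H^2(X)` on which the Frobenius
endomorphism `π` acts as multiplication by `Q` are linear combinations of classes of divisors. -/
def IsTate (Q : ℕ) {X : T.Var} (π : X ⟶ X) : Prop :=
  ∀ c : T.Coh X, T.Degree 2 c → T.H.up π c = (Q : T.K) • c → InSpan T.H (IsDivisorClass T.H) c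

/-- `A` is an abelian variety over the field with `q ^ n` elements (with Frobenius endomorphism `πA`),
isogenous to a product of powers of abelian varieties coming from the field with `q` elements with
characteristic polynomials of Frobenius `f i`, and `Y` is any curve over the field with `q ^ n`
elements. Moreover: the theorem of Tate for the divisors on `A × Y`, the action of Frobenius on the
Chow groups of `A × Y` (Soule), and the nilpotence of homologically trivial self-correspondences of
degree zero of `A × Y` (Kimura). -/
def IsCurvePair (q n : ℕ) {I : Type} (f : I → ℤ[X]) (A Y : T.Var) : Prop :=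
  0 < n ∧ ∃ (πA : A ⟶ A) (πY : Y ⟶ Y), IsAbelian T.H πA q n f ∧ IsCurve T (q ^ n) πY ∧
    IsTate T (q ^ n) (prodMap πA πY) ∧ IsFrobenius T.C (prodMap πA πY) (q ^ n) ∧
      Nilpotence T.H (T.prod A Y)

/-- `GlobalFieldBB q f`: for all `n` and all classes `T` of varieties over the field with `q ^ n`
elements, Bloch-Beilinson filtrations exist over the function fields of the varieties `S` in `T` as
in `BBFor`, for the constant varieties `Z` such that the motive of `model Z × S` is a direct summand
of a sum of Tate twists of motives of products of an abelian variety and of a curve as in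
`IsCurvePair` (for instance: `S` is any curve, and the varieties `model Z` are the abelian varieties
which are isogenous to products of powers of abelian varieties coming from the field with `q`
elements with characteristic polynomials `f i`), and for the varieties dominated by them. -/
def GlobalFieldBB (q : ℕ) {I : Type} (f : I → ℤ[X]) : Prop :=
  ∀ (T : Theory) [IsAlgClosed T.K] [CharZero T.K] (n : ℕ), BBFor T (IsCurvePair T q n f)

end Pool.Agent.K6.H99.FS
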