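import Pool.Agent.K6.H99.FS.Theory

/-!
# Bloch-Beilinson filtrations over function fields: constant varieties
-/

set_option autoImplicit false

open CategoryTheory AlgebraicGeometry

noncomputable section

namespace Pool.Agent.K6.H99.FS

open Pool.Agent.H914 Pool.Agent.H914.VarClass Pool.Agent.H914.VarClass.Obj Pool.Agent.W492.BB

/-- The data attached to the constant varieties over the function field of the variety `S`
over `T.k`: each variety `Z` of the class `T'` (over this function field) is obtained from a variety
`model Z` over `T.k` by extension of the field of definition; `res Z` is the restriction of cycles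
from `model Z × S` to the generic fibre `Z` of the projection to `S`, and `res₂ Z W` is the
restriction of cycles from `(model Z × model W) × S` to `Z × W`. -/
structure ConstantData (T T' : Theory) (S : T.Var) where
  /-- the model over `T.k` -/
  model : T'.Var → T.Var
  /-- restriction to the generic fibre -/
  res : ∀ Z : T'.Var, T.CH (T.prod (model Z) S) →ₐ[ℚ] T'.CH Z
  /-- restriction to the generic fibre, for products -/
  res₂ : ∀ Z W : T'.Var, T.CH (T.prod (T.prod (model Z) (model W)) S) →ₐ[ℚ] T'.CH (T'.prod Z W)

namespace ConstantData

variable {T T' : Theory} {S : T.Var} (D : ConstantData T T' S)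

/-- The variety `model Z × S`. -/
abbrev M (Z : T'.Var) : T.Var := T.prod (D.model Z) S

/-- The variety `(model Z × model W) × S`. -/
abbrev M₂ (Z W : T'.Var) : T.Var := T.prod (T.prod (D.model Z) (D.model W)) S

/-- Restriction to the generic fibre. -/
abbrev r {Z : T'.Var} (z : T.CH (D.M Z)) : T'.CH Z := D.res Z z

/-- Restriction to the generic fibre, for products. -/
abbrev r₂ {Z W : T'.Var} (z : T.CH (D.M₂ Z W)) : T'.CH (T'.prod Z W) := D.res₂ Z W z

/-- The pull-back along `(model Z × model W) × S → model Z × S`. -/
abbrev pullL {Z : T'.Var} (W : T'.Var) (z : T.CH (D.M Z)) : T.CH (D.M₂ Z W) :=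
  T.C.up (prodMap (fst (D.model Z) (D.model W)) (𝟙 S)) z

/-- The push-forward along `(model Z × model W) × S → model W × S`. -/
abbrev pushR {Z W : T'.Var} (z : T.CH (D.M₂ Z W)) : T.CH (D.M W) :=
  T.C.down (prodMap (snd (D.model Z) (D.model W)) (𝟙 S)) z

/-- The restriction of a class on `X × S` to the fibre of `X × S → S` over the zero-cycle `s` of `S`:
the class `p_* (z · q^* s)` on `X`. -/
abbrev fibre {X : T.Var} (s : T.CH S) (z : T.CH (T.prod X S)) : T.CH X :=
  T.downL (T.C.mul z (T.upR X s))

/-- The standard properties of the restriction of cycles to the generic fibres of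
`model Z × S → S`: it preserves dimensions and codimensions, it is surjective, it commutes with the
pull-back to the first factor and the push-forward to the second factor of a product, and it kills
the cycles `model Z × D` for `D` of positive codimension in `S`. -/
structure IsRestriction : Prop where
  dim : ∀ Z, T.dim (D.model Z) = T'.dim Z
  mem : ∀ Z (i : ℤ) (z : T.CH (D.M Z)), T.Codim i z → T'.Codim i (D.r z)
  surj : ∀ Z (i : ℤ) (x : T'.CH Z), T'.Codim i x → ∃ z, T.Codim i z ∧ D.r z = x
  surj₂ : ∀ Z W (i : ℤ) (x : T'.CH (T'.prod Z W)), T'.Codim i x → ∃ z, T.Codim i z ∧ D.r₂ z = x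
  pull : ∀ Z W (z : T.CH (D.M Z)), D.r₂ (D.pullL W z) = T'.upL W (D.r z)
  push : ∀ Z W (z : T.CH (D.M₂ Z W)), D.r (D.pushR z) = T'.downR (D.r₂ z)
  base : ∀ Z (j : ℕ) (x : T.CH S), 0 < j → T.Codim j x → T'.IsZero (D.r (T.upR (D.model Z) x))

/-- Smooth and proper base change and specialization: the cohomology class of a restriction to the
generic fibre is zero, or acts as zero on the cohomology in degree `m`, only if the same holds for
the restriction to the fibre over the zero-cycle `s` of `S` (of degree one). -/
structure Specializes (s : T.CH S) : Prop where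
  hom : ∀ Z (i : ℤ) (z : T.CH (D.M Z)), T.Codim i z →
    (T'.HomZero (D.r z) ↔ T.HomZero (fibre s z))
  kills : ∀ Z W (z : T.CH (D.M₂ Z W)) (m : ℤ), T'.Kill (D.r₂ z) m → T.Kill (fibre s z) m

end ConstantData

/-- The step `L^n H^m(X × S)` of the Leray filtration for the projection `X × S → S`: the span of the
external products `a × b` with `a ∈ H^i(X)`, `b ∈ H^j(S)`, `i + j = m` and `j ≥ n`. -/
def InLeray {T : Theory} {X S : T.Var} (n m : ℤ) (z : T.CH (T.prod X S)) : Prop :=
  Pool.Agent.W484.CK.InSpan T.H (fun c => ∃ (i j : ℤ) (a : T.Coh X) (b : T.Coh S), n ≤ j ∧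
    i + j = m ∧ T.Degree i a ∧ T.Degree j b ∧ c = cross T.H a b) (T.cls z)

/-- `F^n CH^i(Z)` consists of the restrictions to the generic fibre of the cycles `y` of codimension `i`
on `model Z × S` with cohomology class in the step `L^n H^(2i)(model Z × S)` of the Leray filtration
for the projection to `S`. -/
def IsLeray {T T' : Theory} {S : T.Var} (D : ConstantData T T' S) (F : Filtration T'.C) : Prop :=
  ∀ (Z : T'.Var) (i n : ℕ) (x : T'.CH Z), F.Mem i n x ↔
    ∃ y : T.CH (D.M Z), T.Codim i y ∧ InLeray n (2 * i) y ∧ D.r y = x

/-- The data for a transfer from `T'` to `T`: each variety `W` of `T'` is mapped to a variety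
`obj W` of `T`, with a homomorphism of the Chow groups. -/
structure TransferData (T T' : Theory) where
  /-- the transfer of varieties -/
  obj : T'.Var → T.Var
  /-- the transfer of cycles -/
  map : ∀ W : T'.Var, T'.CH W →ₐ[ℚ] T.CH (obj W)

/-- The transfer of cycles. -/
abbrev TransferData.t {T T' : Theory} (α : TransferData T T') {W : T'.Var} (x : T'.CH W) :
    T.CH (α.obj W) := α.map W x

/-- The correspondence `Γ'` induces the correspondence `Γ` on Chow groups, and it acts as zero on the
cohomology in degree `m` if `Γ` does. -/
structure TransferData.Induces {T T' : Theory} (α : TransferData T T') {W V : T'.Var}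
    (Γ : T'.CH (T'.prod W V)) (Γ' : T.CH (T.prod (α.obj W) (α.obj V))) : Prop where
  act : ∀ x : T'.CH W, α.t (T'.act Γ x) = T.act Γ' (α.t x)
  kills : ∀ m : ℤ, T'.Kill Γ m → T.Kill Γ' m

/-- The varieties `W` of `T'` are transferred to varieties `obj W` of `T`, with injective homomorphisms
of the Chow groups. In the intended use `T'.k` is a subfield of `T.k`, the variety `W` becomes over
`T.k` the image of `obj W` under a morphism `f`, and the transfer of cycles is the extension of the
field of definition followed by `f^*`: it respects codimensions and homological equivalence, it is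
injective, and for each correspondence `Γ` from `W` to `V` there is a correspondence `Γ'` of the same
degree from `obj W` to `obj V` which induces `Γ`. (If `f_* h = q` for a class `h` and a number `q ≠ 0`,
take for `Γ'` the composition of `q⁻¹ f_* (h · _)`, `Γ` and the pull-back to `obj V`.) -/
structure IsTransfer {T T' : Theory} (α : TransferData T T') : Prop where
  mem : ∀ (W : T'.Var) (i : ℤ) (x : T'.CH W), T'.Codim i x → T.Codim i (α.t x)
  inj : ∀ (W : T'.Var) (x : T'.CH W), T.IsZero (α.t x) → T'.IsZero x
  hom : ∀ (W : T'.Var) (x : T'.CH W), T.HomZero (α.t x) ↔ T'.HomZero x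
  corr : ∀ (W V : T'.Var) (e : ℤ) (Γ : T'.CH (T'.prod W V)), T'.Codim (T'.dim W + e) Γ →
    ∃ Γ' : T.CH (T.prod (α.obj W) (α.obj V)), T.Codim (T.dim (α.obj W) + e) Γ' ∧ α.Induces Γ Γ'

/-- Bloch-Beilinson filtrations exist for the classes of varieties `T'` dominated by varieties of the
class `T` (`IsTransfer`; for instance `T'` is a class of varieties over a subfield of `T.k` which are
over `T.k` the images of varieties in `T`), with `F^n = 0` for `n > d`. -/
def DominatedBB (T : Theory) (d : ℕ) : Prop :=
  ∀ (T' : Theory) (α : TransferData T T'), T'.IsGood → IsTransfer α → T'.HasBB d fun _ => True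

/-- The motive of `X` is a direct summand of a sum of Tate twists of motives of products `A j × Y j` of
varieties with the property `G`: there are correspondences `a j` (of degree `e j`) from `X` to
`A j × Y j` and `b j` back to `X` such that the sum of the `b j ∘ a j` is the identity. -/
def IsSummand (T : Theory) (G : T.Var → T.Var → Prop) (X : T.Var) : Prop :=
  ∃ (J : Type) (_ : Fintype J) (A Y : J → T.Var) (e : J → ℤ)
    (a : ∀ j, T.CH (T.prod X (T.prod (A j) (Y j)))) (b : ∀ j, T.CH (T.prod (T.prod (A j) (Y j)) X)),
    (∀ j, G (A j) (Y j) ∧ T.Codim (T.dim X + e j) (a j)) ∧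
    ∀ x : T.CH X, x = ∑ j, T.act (b j) (T.act (a j) x)

/-- `BBFor T G`: let `T` be a class of varieties over a finite field, with the standard properties of
Chow groups and cohomology and the Kunneth conjecture (known over finite fields by Katz and
Messing), let `S` be a variety in `T` for which the standard conjecture of Lefschetz type is known
(for instance a curve or an abelian variety), with a zero-cycle `s` of degree one, and let `T'` be a
class of varieties over the function field of `S`, closed under products, which are obtained by
extension of the field of definition from varieties `model Z` in `T` for which the conjecture of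
Lefschetz type is known (for instance abelian varieties), such that `IsSummand` holds for
`model Z × S`. Then there is a Bloch-Beilinson filtration on the Chow groups of the varieties in
`T'`, given by the Leray filtration (`IsLeray`), and on the Chow groups of the varieties dominated by
them (`DominatedBB`), and `F^m = 0` for `m > dim S`. -/
def BBFor (T : Theory) (G : T.Var → T.Var → Prop) : Prop :=
  T.IsGood → T.IsGradedCommutative → KunnethConjecture T.H →
  ∀ (S : T.Var) (s : T.CH S), T.Codim (T.dim S) s → T.HasDeg s 1 → T.HasLefschetz S →
  ∀ (T' : Theory) (D : ConstantData T T' S), T'.IsGood → D.IsRestriction → D.Specializes s →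
    (∀ Z : T'.Var, T.HasLefschetz (D.model Z) ∧ IsSummand T G (D.M Z)) →
    T'.HasBB (T.dim S) (IsLeray D) ∧ DominatedBB T' (T.dim S)

end Pool.Agent.K6.H99.FS
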