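import Pool.Agent.W484.CK.Stm

/-!
# Classes of varieties with Chow groups and a Weil cohomology theory
-/

set_option autoImplicit false

open CategoryTheory AlgebraicGeometry

noncomputable section

namespace Pool.Agent.K6.H99.FS

open Pool.Agent.H914 Pool.Agent.H914.VarClass Pool.Agent.H914.VarClass.Obj Pool.Agent.W492.BB
  Pool.Agent.W484.CK

section

universe u v w

variable {k : Type u} [Field k] {𝒱 : VarClass k} {C : TheoryData.{u, v, 0} 𝒱 ℚ} {K : Type w}
  [Field K] (H : WeilTheoryData.{u, v, w} C K)

/-- The value of the orientation. -/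
def orientation {X : 𝒱.Obj} (a : H.A X) : K := H.tr X a

/-- The external product of cohomology classes. -/
def cross {X Y : 𝒱.Obj} (a : H.A X) (b : H.A Y) : H.A (X.prod Y) :=
  H.mul (H.up (fst X Y) a) (H.up (snd X Y) b)

end

/-- A class `𝒱` of smooth projective varieties over a field `k`, closed under products, with their
Chow groups `C` with rational coefficients, and a Weil cohomology theory `H` with coefficients in
a field `K`. -/
structure Theory where
  /-- the field of definition -/
  k : Type
  [fieldk : Field k]
  /-- the class of varieties -/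
  𝒱 : VarClass k
  /-- the Chow groups -/
  C : TheoryData.{0, 0, 0} 𝒱 ℚ
  /-- the field of coefficients -/
  K : Type
  [fieldK : Field K]
  /-- the cohomology theory -/
  H : WeilTheoryData.{0, 0, 0} C K
  [isChow : IsChow C]
  [isWeil : IsWeil H]

attribute [instance] Theory.fieldk Theory.fieldK Theory.isChow Theory.isWeil

namespace Theory

variable (T : Theory)

/-- The varieties. -/
abbrev Var := T.𝒱.Obj

/-- The Chow groups of `X`. -/
abbrev CH (X : T.Var) := T.C.A X

/-- The cohomology of `X`. -/
abbrev Coh (X : T.Var) := T.H.A X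

/-- The product of two varieties. -/
abbrev prod (X Y : T.Var) : T.Var := Obj.prod X Y

/-- The dimension. -/
abbrev dim (X : T.Var) : ℕ := Obj.dim X

variable {T} {X Y Z S : T.Var}

/-- The class `z` has codimension `i`. -/
abbrev Codim (i : ℤ) (z : T.CH X) : Prop := T.C.Deg i z

/-- The cohomology class `a` has degree `i`. -/
abbrev Degree (i : ℤ) (a : T.Coh X) : Prop := T.H.Deg i a

/-- The class `z` is zero. -/
abbrev IsZero (z : T.CH X) : Prop := z = 0

/-- The cohomology class of a cycle. -/
abbrev cls (z : T.CH X) : T.Coh X := T.H.cl z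

/-- The class `z` is homologically equivalent to zero. -/
abbrev HomZero (z : T.CH X) : Prop := T.cls z = 0

/-- The class `q [X]`. -/
abbrev fund (X : T.Var) (q : ℚ) : T.CH X := q • 1

/-- The pull-back `x × Y` of `x` to `X × Y`. -/
abbrev upL (Y : T.Var) (x : T.CH X) : T.CH (T.prod X Y) := T.C.up (fst X Y) x

/-- The pull-back `X × y` of `y` to `X × Y`. -/
abbrev upR (X : T.Var) (y : T.CH Y) : T.CH (T.prod X Y) := T.C.up (snd X Y) y

/-- The push-forward to the first factor. -/
abbrev downL (z : T.CH (T.prod X Y)) : T.CH X := T.C.down (fst X Y) z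

/-- The push-forward to the second factor. -/
abbrev downR (z : T.CH (T.prod X Y)) : T.CH Y := T.C.down (snd X Y) z

/-- The action on Chow groups of the correspondence `Γ` from `X` to `Y`. -/
abbrev act (Γ : T.CH (T.prod X Y)) (x : T.CH X) : T.CH Y := T.C.act Γ x

/-- The correspondence `Γ` acts as zero on `H^m(X)`. -/
abbrev Kill (Γ : T.CH (T.prod X Y)) (m : ℤ) : Prop := Kills T.H Γ m

/-- The action on cohomology of the correspondence `Γ` from `X` to `Y`. -/
abbrev cohAct (Γ : T.CH (T.prod X Y)) (a : T.Coh X) : T.Coh Y := T.H.act (T.cls Γ) a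

/-- The product of a cycle class and a cohomology class. -/
abbrev cap (y : T.CH X) (a : T.Coh X) : T.Coh X := T.H.mul (T.cls y) a

/-- The power `h ^ n`. -/
abbrev power (h : T.CH X) (n : ℕ) : T.CH X := h ^ n

/-- `f` and `g` are inverse isomorphisms. -/
abbrev Inverse (f : X ⟶ Y) (g : Y ⟶ X) : Prop := f ≫ g = 𝟙 X ∧ g ≫ f = 𝟙 Y

/-- The zero-cycle `x` on `X` has degree `q`: for all `Y` the push-forward of `x × Y` to `Y` is `q`
times the fundamental class of `Y`. -/
def HasDeg (x : T.CH X) (q : ℚ) : Prop :=
  ∀ Y : T.Var, T.downR (T.upL Y x) = T.fund Y q ∧ T.downL (T.upR Y x) = T.fund Y q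

variable (T)

/-- Standard properties of Chow groups which are not recorded in `IsChow`: push-forwards along
isomorphisms preserve fundamental classes, every zero-cycle has a degree, and the self-intersection
number `h ^ dim X` of some divisor class `h` is not zero (`h` is the class of a hyperplane
section). -/
structure IsNormal : Prop where
  push_one : ∀ {X Y : T.Var} (f : X ⟶ Y) (g : Y ⟶ X), T.Inverse f g →
    T.C.down f (T.fund X 1) = T.fund Y 1
  degree : ∀ (X : T.Var) (x : T.CH X), T.Codim (T.dim X) x → ∃ q : ℚ, T.HasDeg x q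
  polarized : ∀ X : T.Var, ∃ h : T.CH X, T.Codim 1 h ∧ ∃ q : ℚ, q ≠ 0 ∧
    T.HasDeg (T.power h (T.dim X)) q

/-- The orientation of `H` vanishes outside the top degree. -/
def IsTopOriented : Prop :=
  ∀ (X : T.Var) (i : ℤ) (a : T.Coh X), T.Degree i a → i ≠ 2 * T.dim X → orientation T.H a = 0

/-- Standard properties of Chow groups and cohomology which are not recorded in `IsChow` and
`IsWeil`. -/
structure IsGood : Prop where
  normal : T.IsNormal
  standard : IsStandard T.H
  topOriented : T.IsTopOriented

/-- The cohomology is graded-commutative. -/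
def IsGradedCommutative : Prop :=
  ∀ (X : T.Var) (i j : ℕ) (a b : T.Coh X), T.Degree i a → T.Degree j b →
    T.H.mul a b = (-1 : T.K) ^ (i * j) • T.H.mul b a

variable {T}

/-- The class `N` on `X × X` induces the inverse of the product `H^m(X) → H^(2d-m)(X)` with the class
of `y`, where `d = dim X`. -/
def IsInverse (y : T.CH X) (m : ℕ) (N : T.CH (T.prod X X)) : Prop :=
  (∀ a : T.Coh X, T.Degree m a → T.cohAct N (T.cap y a) = a) ∧
    ∀ a : T.Coh X, T.Degree (2 * T.dim X - m) a → T.cap y (T.cohAct N a) = a

/-- The standard conjecture of Lefschetz type for `X`: for a divisor class `h` and every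
`m ≤ d = dim X` there is an algebraic correspondence `N` of degree `m - d` on `X` which induces the
inverse of the product `H^m(X) → H^(2d-m)(X)` with `h ^ (d - m)`. It is known for abelian varieties
(Lieberman, Kleiman). -/
def HasLefschetz (X : T.Var) : Prop :=
  ∃ h : T.CH X, T.Codim 1 h ∧ ∀ m : ℕ, m ≤ T.dim X →
    ∃ N : T.CH (T.prod X X), T.Codim m N ∧ T.IsInverse (T.power h (T.dim X - m)) m N

variable (T)

/-- A strong form of a Bloch-Beilinson filtration: moreover, all correspondences, of any degree and
with any target, respect the filtration, and a correspondence from `X` to `Y` which acts as zero on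
`H^(2i-n)(X)` maps `F^n CH^i(X)` to the `(n+1)`-st step. -/
def IsStrong (F : Filtration T.C) : Prop :=
  ∀ (X Y : T.Var) (i j n : ℕ) (Γ : T.CH (T.prod X Y)) (x : T.CH X),
    T.Codim (T.dim X + j - i) Γ → F.Mem i n x →
      F.Mem j n (T.act Γ x) ∧ (T.Kill Γ (2 * i - n) → F.Mem j (n + 1) (T.act Γ x))

/-- There is a Bloch-Beilinson filtration on the Chow groups, also in the strong form `IsStrong`,
with `F^n = 0` for `n > d` and with the property `P`. -/
def HasBB (d : ℕ) (P : Filtration T.C → Prop) : Prop :=
  ∃ F : Filtration T.C, IsBB T.H F ∧ T.IsStrong F ∧ P F ∧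
    ∀ (X : T.Var) (i n : ℕ) (x : T.CH X), d < n → F.Mem i n x → T.IsZero x

end Theory

end Pool.Agent.K6.H99.FS
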